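import Pool.Agent.Lib.MP_100a6c_lc.IfaceV

/-!
# Module GS: typed guessing models closed under any rule
-/

universe u

open Cardinal

namespace Pool.Agent.Lib.MP_100a6c_lc.H62

/-! ## Translations -/

theorem V_guessed (M d : ZFSet.{u}) :
    V.guessed M d ↔ ∃ e, e ∈ M ∧ ∀ y, y ∈ M → (y ∈ d ↔ y ∈ e) := by
  simp [Str.guessed, V]

theorem V_approx (κ M d : ZFSet.{u}) :
    V.approx κ M d ↔ ∀ z, z ∈ M ∧ V.sub z M ∧ V.leCard z κ →
      ∃ t, t ∈ M ∧ ∀ y, y ∈ t ↔ y ∈ d ∧ y ∈ z := by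
  simp [Str.approx, V, and_assoc]

theorem V_isGuess (κ μ H M : ZFSet.{u}) :
    V.isGuess κ μ H M ↔ V.elem M H ∧ (V.leCard M μ ∧ V.leCard μ M) ∧
      (∀ ξ s, ξ ∈ κ ∧ V.isFun s ξ M → s ∈ M) ∧
      ∀ x d, x ∈ M ∧ V.sub d x ∧ V.approx κ M d → V.guessed M d := by
  simp [Str.isGuess, V, and_assoc]

/-! ## Cardinalities and small sets -/

theorem exists_code (α : Type u) : ∃ f : α → ZFSet.{u}, Function.Injective f :=
  ⟨fun a => (Ordinal.typein (WellOrderingRel : α → α → Prop) a).toZFSet,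
    Ordinal.toZFSet_injective.comp (Ordinal.typein_injective _)⟩

theorem card_range_le {α : Type u} (f : α → ZFSet.{u}) : (ZFSet.range f).card ≤ #α := by
  have := ZFSet.lift_card_range_le (f := f)
  simpa using this

theorem card_range_eq {α : Type u} {f : α → ZFSet.{u}} (hf : Function.Injective f) :
    (ZFSet.range f).card = #α := by
  rw [← lift_inj.{u, u + 1}, ← ZFSet.cardinalMk_coe_sort]
  have h := Cardinal.mk_range_eq_of_injective.{u} hf
  rw [← ZFSet.coe_range] at h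
  have h' : #((ZFSet.range f : ZFSet.{u}) : Set ZFSet.{u}) = lift.{u + 1} #α :=
    (lift_id'.{u, u + 1} _).symm.trans h
  exact h'

theorem mk_le_card {α : Type u} {f : α → ZFSet.{u}} (hf : Function.Injective f) {x : ZFSet.{u}}
    (h : ∀ a, f a ∈ x) : #α ≤ x.card := by
  rw [← card_range_eq hf]
  apply ZFSet.card_mono
  intro y hy
  obtain ⟨a, rfl⟩ := ZFSet.mem_range.1 hy
  exact h a

theorem exists_small_subset (c : Cardinal.{u}) (e : ZFSet.{u}) :
    ∃ s : ZFSet.{u}, s ⊆ e ∧ s.card ≤ c ∧ (e.card ≤ c → s = e) ∧ (c ≤ e.card → c ≤ s.card) := by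
  by_cases h : e.card ≤ c
  · exact ⟨e, fun _ h => h, h, fun _ => rfl, fun h => h⟩
  · have h' : c ≤ #(Shrink.{u} e) := (not_le.1 h).le
    obtain ⟨p, hp⟩ := Cardinal.le_mk_iff_exists_set.1 h'
    have hinj : Function.Injective (fun x : p => (((equivShrink e).symm x.1).1 : ZFSet.{u})) := by
      intro x y hxy
      have := (equivShrink e).symm.injective (Subtype.ext hxy)
      exact Subtype.ext this
    refine ⟨ZFSet.range (fun x : p => (((equivShrink e).symm x.1).1 : ZFSet.{u})), ?_, ?_, ?_, ?_⟩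
    · intro y hy
      obtain ⟨a, rfl⟩ := ZFSet.mem_range.1 hy
      exact ((equivShrink e).symm a.1).2
    · rw [card_range_eq hinj, hp]
    · intro h''; exact absurd h'' h
    · intro _; rw [card_range_eq hinj, hp]

/-! ## The rules -/

section rules

variable {I B K : Type u} (code : Om I B K → ZFSet.{u}) (κ : ZFSet.{u})

/-- The set of all codes. -/
noncomputable def W0 : ZFSet.{u} := ZFSet.range code

/-- The subsets of `κ × W0`. -/
noncomputable def PW : ZFSet.{u} := ZFSet.powerset (κ.prod (W0 code))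

/-- The set of codes of the elements of `s`. -/
noncomputable def lit (s : Set (Om I B K)) : ZFSet.{u} := ZFSet.range (fun ω : s => code ω.1)

/-- The indices with codes in `z`. -/
def preI (z : ZFSet.{u}) : Set I := {i | code (.idx i) ∈ z}

/-- The subsets with codes in `z`. -/
def preS (z : ZFSet.{u}) : Set (Set I) := {s | code (.sub s) ∈ z}

open Classical in
/-- From the code of a subset to the set of codes. -/
noncomputable def f3 (z : ZFSet.{u}) : ZFSet.{u} :=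
  if h : ∃ w : Set I, code (.sub w) = z then lit code (Om.idx '' h.choose) else ∅

/-- The union of the ranges of the functions in `z`. -/
noncomputable def f4 (z : ZFSet.{u}) : ZFSet.{u} :=
  (W0 code).sep fun y => ∃ s ∈ z, ∃ ξ ∈ κ, ZFSet.IsFunc ξ (W0 code) s ∧ ∃ η, ZFSet.pair η y ∈ s

/-- The range of `g`. -/
noncomputable def f5 (g : ZFSet.{u}) : ZFSet.{u} :=
  (PW code κ).sep fun y => ∃ x, ZFSet.pair x y ∈ g

/-- A subset of `e` of size at most `c`. -/
noncomputable def f6 (c : Cardinal.{u}) (e : ZFSet.{u}) : ZFSet.{u} :=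
  (exists_small_subset c e).choose

theorem f6_spec (c : Cardinal.{u}) (e : ZFSet.{u}) :
    f6 c e ⊆ e ∧ (f6 c e).card ≤ c ∧ (e.card ≤ c → f6 c e = e) ∧
      (c ≤ e.card → c ≤ (f6 c e).card) :=
  (exists_small_subset c e).choose_spec

variable (R : List (Om I B K) → Set (Om I B K))

/-- The single output rules. -/
noncomputable def rs (c : Cardinal.{u}) : List ZFSet.{u} → ZFSet.{u}
  | [z] => {code (.sub (preI code z)), code (.fam (preS code z)), f3 code z, f4 code κ z,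
      f5 code κ z} ∪ f6 c z
  | _ => ∅

open Classical in
/-- The given rule. -/
noncomputable def rR (l : List ZFSet.{u}) : ZFSet.{u} :=
  if h : ∃ l' : List (Om I B K), l'.map code = l then lit code (R h.choose) else ∅

/-- The rule on sets. -/
noncomputable def RR (c : Cardinal.{u}) (l : List ZFSet.{u}) : ZFSet.{u} :=
  {lit code (Om.idx '' Set.univ), PW code κ, ∅} ∪ (rs code κ c l ∪ rR code R l)

variable {code}

theorem mem_lit {s : Set (Om I B K)} {x : ZFSet.{u}} : x ∈ lit code s ↔ ∃ ω ∈ s, code ω = x := by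
  simp [lit]

theorem code_mem_lit (hc : Function.Injective code) {s : Set (Om I B K)} {ω : Om I B K} :
    code ω ∈ lit code s ↔ ω ∈ s := by
  rw [mem_lit]
  constructor
  · rintro ⟨ω', h, h'⟩
    rwa [← hc h']
  · intro h
    exact ⟨ω, h, rfl⟩

theorem lit_subset (s : Set (Om I B K)) : lit code s ⊆ W0 code := by
  intro x hx
  obtain ⟨ω, -, rfl⟩ := mem_lit.1 hx
  exact ZFSet.mem_range_self _

theorem card_lit_le (s : Set (Om I B K)) : (lit code s).card ≤ #s := card_range_le _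

theorem f3_sub (hc : Function.Injective code) (w : Set I) :
    f3 code (code (.sub w)) = lit code (Om.idx '' w) := by
  have h : ∃ w' : Set I, code (.sub w') = code (.sub w) := ⟨w, rfl⟩
  have h2 : h.choose = w := by
    have := hc h.choose_spec
    injection this
  rw [f3, dif_pos h, h2]

theorem rR_map (hc : Function.Injective code) (l : List (Om I B K)) :
    rR code R (l.map code) = lit code (R l) := by
  have h : ∃ l' : List (Om I B K), l'.map code = l.map code := ⟨l, rfl⟩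
  have h2 : h.choose = l := hc.list_map h.choose_spec
  rw [rR, dif_pos h, h2]

theorem card_triple_le (x y z : ZFSet.{u}) : ({x, y, z} : ZFSet.{u}).card ≤ ℵ₀ := by
  refine ZFSet.card_insert_le.trans ?_
  refine (add_le_add ZFSet.card_insert_le le_rfl).trans ?_
  rw [ZFSet.card_singleton]
  have : (1 + 1 + 1 : Cardinal.{u}) = ((3 : ℕ) : Cardinal.{u}) := by norm_num
  rw [this]
  exact (Cardinal.natCast_lt_aleph0 (n := 3)).le

theorem card_insert_le_aleph0 {x y : ZFSet.{u}} (h : y.card ≤ ℵ₀) : (insert x y).card ≤ ℵ₀ := by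
  refine ZFSet.card_insert_le.trans ?_
  exact (add_le_add h (one_le_aleph0)).trans (by simp)

theorem card_union_le' {c : Cardinal.{u}} (hc : ℵ₀ ≤ c) {x y : ZFSet.{u}} (hx : x.card ≤ c)
    (hy : y.card ≤ c) : (x ∪ y).card ≤ c :=
  ZFSet.card_union_le.trans ((add_le_add hx hy).trans (add_eq_self hc).le)

theorem card_RR {c : Cardinal.{u}} (hc : ℵ₀ ≤ c) (hR : ∀ l, #(R l) ≤ c) (l : List ZFSet.{u}) :
    (RR code κ R c l).card ≤ c := by
  refine card_union_le' hc ((card_triple_le _ _ _).trans hc) (card_union_le' hc ?_ ?_)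
  · unfold rs
    split
    · refine card_union_le' hc ?_ (f6_spec _ _).2.1
      exact (card_insert_le_aleph0 (card_insert_le_aleph0 (card_triple_le _ _ _))).trans hc
    · simp
  · unfold rR
    split_ifs
    · exact (card_lit_le _).trans (hR _)
    · simp

end rules

/-! ## Closed sets -/

/-- `M` is closed under the rules. -/
structure Good {I B K : Type u} (code : Om I B K → ZFSet.{u}) (κ : ZFSet.{u}) (c : Cardinal.{u})
    (R : List (Om I B K) → Set (Om I B K)) (H M : ZFSet.{u}) : Prop where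
  inj : Function.Injective code
  trans : H.IsTransitive
  down : ∀ x y, x ⊆ y → y ∈ H → x ∈ H
  hW : W0 code ∈ H
  hP : PW code κ ∈ H
  hMH : M ⊆ H
  hcl : ∀ l : List ZFSet.{u}, (∀ x ∈ l, x ∈ M) → ∀ y ∈ RR code κ R (Order.succ c) l, y ∈ H → y ∈ M

namespace Good

variable {I B K : Type u} {code : Om I B K → ZFSet.{u}} {κ : ZFSet.{u}} {c : Cardinal.{u}}
    {R : List (Om I B K) → Set (Om I B K)} {H M : ZFSet.{u}} (G : Good code κ c R H M)

include G

theorem code_mem (ω : Om I B K) : code ω ∈ H :=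
  G.trans _ G.hW (ZFSet.mem_range_self ω)

theorem lit_mem (s : Set (Om I B K)) : lit code s ∈ H :=
  G.down _ _ (lit_subset s) G.hW

theorem base {y : ZFSet.{u}}
    (hy : y ∈ ({lit code (Om.idx '' Set.univ), PW code κ, ∅} : ZFSet.{u})) (hH : y ∈ H) :
    y ∈ M :=
  G.hcl [] (by simp) y (ZFSet.mem_union.2 (Or.inl hy)) hH

theorem litU_mem : lit code (Om.idx '' Set.univ) ∈ M :=
  G.base (by simp) (G.lit_mem _)

theorem PW_mem : PW code κ ∈ M :=
  G.base (by simp) G.hP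

theorem empty_mem : ∅ ∈ M :=
  G.base (by simp) (G.down _ _ (ZFSet.empty_subset _) G.hW)

theorem single {z y : ZFSet.{u}} (hz : z ∈ M) (hy : y ∈ rs code κ (Order.succ c) [z])
    (hH : y ∈ H) : y ∈ M :=
  G.hcl [z] (by simpa using hz) y
    (ZFSet.mem_union.2 (Or.inr (ZFSet.mem_union.2 (Or.inl hy)))) hH

theorem r1 {z : ZFSet.{u}} (hz : z ∈ M) : code (.sub (preI code z)) ∈ M :=
  G.single hz (by simp [rs]) (G.code_mem _)

theorem r2 {z : ZFSet.{u}} (hz : z ∈ M) : code (.fam (preS code z)) ∈ M :=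
  G.single hz (by simp [rs]) (G.code_mem _)

theorem r3 {w : Set I} (hz : code (.sub w) ∈ M) : lit code (Om.idx '' w) ∈ M := by
  have h := G.single hz (y := f3 code (code (.sub w))) (by simp [rs])
    (by rw [f3_sub G.inj]; exact G.lit_mem _)
  rwa [f3_sub G.inj] at h

theorem r4 {z : ZFSet.{u}} (hz : z ∈ M) : f4 code κ z ∈ M :=
  G.single hz (by simp [rs]) (G.down _ _ ZFSet.sep_subset G.hW)

theorem r5 {z : ZFSet.{u}} (hz : z ∈ M) : f5 code κ z ∈ M :=
  G.single hz (by simp [rs]) (G.down _ _ ZFSet.sep_subset G.hP)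

theorem r6 {z : ZFSet.{u}} (hz : z ∈ M) : f6 (Order.succ c) z ⊆ M := by
  intro y hy
  refine G.single hz (ZFSet.mem_union.2 (Or.inr hy)) ?_
  exact G.trans _ (G.hMH hz) ((f6_spec _ _).1 hy)

theorem rclosed : RClosed R {ω | code ω ∈ M} := by
  intro l hl ω hω
  refine G.hcl (l.map code) ?_ (code ω) ?_ (G.code_mem _)
  · intro x hx
    obtain ⟨ω', h', rfl⟩ := List.mem_map.1 hx
    exact hl _ h'
  · refine ZFSet.mem_union.2 (Or.inr (ZFSet.mem_union.2 (Or.inr ?_)))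
    rw [rR_map R G.inj, code_mem_lit G.inj]
    exact hω

end Good

/-! ## Restrictions of functions -/

/-- The restriction of `a` to `ξ` as a set of pairs. -/
noncomputable def fr (a : ZFSet.{u} → ZFSet.{u}) (ξ : ZFSet.{u}) : ZFSet.{u} :=
  ZFSet.range (fun η : {x // x ∈ ξ} => ZFSet.pair η.1 (a η.1))

theorem mem_fr {a : ZFSet.{u} → ZFSet.{u}} {ξ p : ZFSet.{u}} :
    p ∈ fr a ξ ↔ ∃ η ∈ ξ, ZFSet.pair η (a η) = p := by
  simp [fr]

theorem pair_mem_fr {a : ZFSet.{u} → ZFSet.{u}} {ξ η y : ZFSet.{u}} :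
    ZFSet.pair η y ∈ fr a ξ ↔ η ∈ ξ ∧ a η = y := by
  rw [mem_fr]
  constructor
  · rintro ⟨η', h, h'⟩
    obtain ⟨rfl, rfl⟩ := ZFSet.pair_inj.1 h'
    exact ⟨h, rfl⟩
  · rintro ⟨h, rfl⟩
    exact ⟨η, h, rfl⟩

theorem fr_isFunc {a : ZFSet.{u} → ZFSet.{u}} {ξ Y : ZFSet.{u}} (h : ∀ η ∈ ξ, a η ∈ Y) :
    ZFSet.IsFunc ξ Y (fr a ξ) := by
  constructor
  · intro p hp
    obtain ⟨η, hη, rfl⟩ := mem_fr.1 hp
    exact ZFSet.pair_mem_prod.2 ⟨hη, h _ hη⟩
  · intro z hz
    refine ⟨a z, pair_mem_fr.2 ⟨hz, rfl⟩, ?_⟩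
    intro w hw
    exact (pair_mem_fr.1 hw).2.symm

theorem fr_mem_PW {I B K : Type u} {code : Om I B K → ZFSet.{u}} {κ : ZFSet.{u}}
    {a : ZFSet.{u} → ZFSet.{u}} {ξ : ZFSet.{u}} (hξ : ξ ⊆ κ) (h : ∀ η ∈ ξ, a η ∈ W0 code) :
    fr a ξ ∈ PW code κ := by
  rw [PW, ZFSet.mem_powerset]
  intro p hp
  obtain ⟨η, hη, rfl⟩ := mem_fr.1 hp
  exact ZFSet.pair_mem_prod.2 ⟨hξ hη, h _ hη⟩

/-! ## Cardinality of `f4` -/

theorem card_f4 {I B K : Type u} {code : Om I B K → ZFSet.{u}} {κ : ZFSet.{u}} {c : Cardinal.{u}}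
    (hc : ℵ₀ ≤ c) (hκ : κ.card ≤ c) (htr : κ.IsTransitive) {z : ZFSet.{u}} (hz : z.card ≤ c) :
    (f4 code κ z).card ≤ c := by
  classical
  let g : Shrink.{u} z × Shrink.{u} κ → ZFSet.{u} := fun p =>
    if h : ∃ y, ZFSet.pair ((equivShrink κ).symm p.2).1 y ∈ ((equivShrink z).symm p.1).1 then
      h.choose else ∅
  have hsub : f4 code κ z ⊆ ZFSet.range g := by
    intro y hy
    obtain ⟨hyW, s, hs, ξ, hξ, hf, η, hη⟩ := ZFSet.mem_sep.1 hy
    have hηξ : η ∈ ξ := (ZFSet.pair_mem_prod.1 (hf.1 hη)).1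
    have hηκ : η ∈ κ := htr _ hξ hηξ
    refine ZFSet.mem_range.2 ⟨(equivShrink z ⟨s, hs⟩, equivShrink κ ⟨η, hηκ⟩), ?_⟩
    have h : ∃ y, ZFSet.pair η y ∈ s := ⟨y, hη⟩
    have h1 : g (equivShrink z ⟨s, hs⟩, equivShrink κ ⟨η, hηκ⟩) = h.choose := by
      simp only [g, Equiv.symm_apply_apply]
      rw [dif_pos h]
    rw [h1]
    exact (hf.2 η hηξ).unique h.choose_spec hη
  refine (ZFSet.card_mono hsub).trans ((card_range_le g).trans ?_)
  rw [Cardinal.mk_prod, lift_id, lift_id]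
  exact (mul_le_mul' hz hκ).trans (mul_eq_self hc).le

/-! ## Internal unboundedness -/

theorem cover {I B K : Type u} {code : Om I B K → ZFSet.{u}} {κ : ZFSet.{u}} {c : Cardinal.{u}}
    {R : List (Om I B K) → Set (Om I B K)} {H M : ZFSet.{u}} (G : Good code κ c R H M)
    (hc : ℵ₀ ≤ c) (hκ : κ = c.ord.toZFSet)
    (hfun : ∀ ξ s, ξ ∈ κ → ZFSet.IsFunc ξ M s → s ∈ M)
    (hg : ∀ x d, x ∈ M → d ⊆ x →
      (∀ z, z ∈ M → z ⊆ M → z.card ≤ c → ∃ t, t ∈ M ∧ ∀ y, y ∈ t ↔ y ∈ d ∧ y ∈ z) →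
      ∃ e, e ∈ M ∧ ∀ y, y ∈ M → (y ∈ d ↔ y ∈ e))
    (a : ZFSet.{u} → ZFSet.{u}) (haM : ∀ η ∈ κ, a η ∈ M) (haW : ∀ η ∈ κ, a η ∈ W0 code) :
    ∃ z ∈ M, z.card ≤ c ∧ ∀ η ∈ κ, a η ∈ z := by
  classical
  have hord : κ.IsOrdinal := by rw [hκ]; exact ZFSet.isOrdinal_toZFSet _
  have hcard : κ.card = c := by rw [hκ, Ordinal.card_toZFSet, card_ord]
  have hsucc : ∀ η ∈ κ, insert η η ∈ κ := by
    intro η hη
    rw [hκ] at hη ⊢
    obtain ⟨o, ho, rfl⟩ := Ordinal.mem_toZFSet_iff.1 hη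
    rw [← Ordinal.toZFSet_add_one, Ordinal.toZFSet_mem_toZFSet_iff]
    exact (isSuccLimit_ord hc).add_one_lt ho
  -- the restrictions are in `M`
  have hfrM : ∀ ξ ∈ κ, fr a ξ ∈ M := fun ξ hξ =>
    hfun ξ _ hξ (fr_isFunc fun η hη => haM η (hord.isTransitive _ hξ hη))
  have hfrP : ∀ ξ ∈ κ, fr a ξ ∈ PW code κ := fun ξ hξ =>
    fr_mem_PW (hord.isTransitive _ hξ) fun η hη => haW η (hord.isTransitive _ hξ hη)
  -- case 1
  have case1 : ∀ z ∈ M, z.card ≤ c → (∀ η ∈ κ, ∃ ξ ∈ κ, η ∈ ξ ∧ fr a ξ ∈ z) →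
      ∃ z ∈ M, z.card ≤ c ∧ ∀ η ∈ κ, a η ∈ z := by
    intro z hz hzc h
    refine ⟨f4 code κ z, G.r4 hz, card_f4 hc hcard.le hord.isTransitive hzc, ?_⟩
    intro η hη
    obtain ⟨ξ, hξ, hηξ, hs⟩ := h η hη
    refine ZFSet.mem_sep.2 ⟨haW η hη, fr a ξ, hs, ξ, hξ, ?_, η, pair_mem_fr.2 ⟨hηξ, rfl⟩⟩
    exact fr_isFunc fun η hη => haW η (hord.isTransitive _ hξ hη)
  by_contra hno
  have hno' : ∀ z ∈ M, z.card ≤ c → ∃ η ∈ κ, ∀ ξ ∈ κ, η ∈ ξ → fr a ξ ∉ z := by
    intro z hz hzc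
    by_contra h
    push Not at h
    exact hno (case1 z hz hzc h)
  -- the set of restrictions
  let d : ZFSet.{u} := ZFSet.range (fun ξ : {x // x ∈ κ} => fr a ξ.1)
  have hd : ∀ y, y ∈ d ↔ ∃ ξ ∈ κ, fr a ξ = y := by
    intro y
    simp [d]
  have hdM : d ⊆ M := by
    intro y hy
    obtain ⟨ξ, hξ, rfl⟩ := (hd y).1 hy
    exact hfrM ξ hξ
  have hdP : d ⊆ PW code κ := by
    intro y hy
    obtain ⟨ξ, hξ, rfl⟩ := (hd y).1 hy
    exact hfrP ξ hξ
  have hdc : d.card ≤ c := by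
    let g : Shrink.{u} κ → ZFSet.{u} := fun x => fr a ((equivShrink κ).symm x).1
    have : d ⊆ ZFSet.range g := by
      intro y hy
      obtain ⟨ξ, hξ, rfl⟩ := (hd y).1 hy
      refine ZFSet.mem_range.2 ⟨equivShrink κ ⟨ξ, hξ⟩, ?_⟩
      simp only [g, Equiv.symm_apply_apply]
    refine (ZFSet.card_mono this).trans ((card_range_le g).trans ?_)
    exact hcard.le
  have happ : ∀ z, z ∈ M → z ⊆ M → z.card ≤ c → ∃ t, t ∈ M ∧ ∀ y, y ∈ t ↔ y ∈ d ∧ y ∈ z := by
    intro z hz _ hzc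
    obtain ⟨η, hη, hη'⟩ := hno' z hz hzc
    by_cases hemp : ∃ v, v ∈ d ∧ v ∈ z
    · obtain ⟨v, hvd, hvz⟩ := hemp
      have hβ := hsucc η hη
      let b : ZFSet.{u} → ZFSet.{u} := fun ξ => if fr a ξ ∈ z then fr a ξ else v
      have hbd : ∀ ξ ∈ insert η η, b ξ ∈ d ∧ b ξ ∈ z := by
        intro ξ hξ
        have hξκ : ξ ∈ κ := hord.isTransitive _ hβ hξ
        by_cases h : fr a ξ ∈ z
        · have : b ξ = fr a ξ := if_pos h
          rw [this]
          exact ⟨(hd _).2 ⟨ξ, hξκ, rfl⟩, h⟩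
        · have : b ξ = v := if_neg h
          rw [this]
          exact ⟨hvd, hvz⟩
      have hgM : fr b (insert η η) ∈ M :=
        hfun _ _ hβ (fr_isFunc fun ξ hξ => hdM (hbd ξ hξ).1)
      refine ⟨f5 code κ (fr b (insert η η)), G.r5 hgM, ?_⟩
      intro y
      constructor
      · intro hy
        obtain ⟨-, x, hx⟩ := ZFSet.mem_sep.1 hy
        obtain ⟨hx1, rfl⟩ := pair_mem_fr.1 hx
        exact hbd x hx1
      · rintro ⟨hy, hyz⟩
        obtain ⟨ξ, hξ, rfl⟩ := (hd y).1 hy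
        refine ZFSet.mem_sep.2 ⟨hfrP ξ hξ, ξ, pair_mem_fr.2 ⟨?_, if_pos hyz⟩⟩
        have h1 : η ∉ ξ := fun h => hη' ξ hξ h hyz
        rw [ZFSet.mem_insert_iff]
        have := ZFSet.IsOrdinal.mem_trichotomous (hord.mem hξ) (hord.mem hη)
        tauto
    · refine ⟨∅, G.empty_mem, fun y => ?_⟩
      constructor
      · intro h; exact absurd h (ZFSet.notMem_empty _)
      · intro h; exact absurd ⟨y, h⟩ hemp
  obtain ⟨e, heM, he⟩ := hg _ d G.PW_mem hdP happ
  have h6 := f6_spec (Order.succ c) e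
  have hle : ¬ Order.succ c ≤ e.card := by
    intro h
    have h1 := h6.2.2.2 h
    have h2 : f6 (Order.succ c) e ⊆ d := by
      intro y hy
      exact (he y (G.r6 heM hy)).2 (h6.1 hy)
    have h3 : Order.succ c ≤ c := h1.trans ((ZFSet.card_mono h2).trans hdc)
    exact absurd h3 (not_le.2 (Order.lt_succ c))
  have hec : e.card ≤ c := Order.lt_succ_iff.1 (not_le.1 hle)
  have heq : f6 (Order.succ c) e = e := h6.2.2.1 (hec.trans (Order.le_succ c))
  have heM' : e ⊆ M := by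
    rw [← heq]
    exact G.r6 heM
  obtain ⟨η, hη, hη'⟩ := hno' e heM hec
  refine hη' (insert η η) (hsucc η hη) (by simp) ?_
  refine (he _ (hfrM _ (hsucc η hη))).1 ((hd _).2 ⟨_, hsucc η hη, rfl⟩)

/-- Internal unboundedness for families indexed by `K`. -/
theorem coverK {I B K : Type u} {code : Om I B K → ZFSet.{u}} {κ : ZFSet.{u}} {c : Cardinal.{u}}
    {R : List (Om I B K) → Set (Om I B K)} {H M : ZFSet.{u}} (G : Good code κ c R H M)
    (hc : ℵ₀ ≤ c) (hκ : κ = c.ord.toZFSet) (hK : #K = c)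
    (hfun : ∀ ξ s, ξ ∈ κ → ZFSet.IsFunc ξ M s → s ∈ M)
    (hg : ∀ x d, x ∈ M → d ⊆ x →
      (∀ z, z ∈ M → z ⊆ M → z.card ≤ c → ∃ t, t ∈ M ∧ ∀ y, y ∈ t ↔ y ∈ d ∧ y ∈ z) →
      ∃ e, e ∈ M ∧ ∀ y, y ∈ M → (y ∈ d ↔ y ∈ e))
    (a : K → Om I B K) (haM : ∀ k, code (a k) ∈ M) :
    ∃ z ∈ M, z.card ≤ c ∧ ∀ k, code (a k) ∈ z := by
  classical
  have hcard : κ.card = c := by rw [hκ, Ordinal.card_toZFSet, card_ord]
  have hKκ : #K = #(Shrink.{u} κ) := hK.trans hcard.symm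
  obtain ⟨φ⟩ := Cardinal.eq.1 hKκ
  let b : ZFSet.{u} → ZFSet.{u} := fun η =>
    if h : η ∈ κ then code (a (φ.symm (equivShrink κ ⟨η, h⟩))) else ∅
  have hb : ∀ η (h : η ∈ κ), b η = code (a (φ.symm (equivShrink κ ⟨η, h⟩))) := fun η h =>
    dif_pos h
  obtain ⟨z, hz, hzc, hzb⟩ := cover G hc hκ hfun hg b
    (fun η h => by rw [hb η h]; exact haM _) (fun η h => by rw [hb η h]; exact ZFSet.mem_range_self _)
  refine ⟨z, hz, hzc, fun k => ?_⟩
  have h1 := hzb ((equivShrink κ).symm (φ k)).1 ((equivShrink κ).symm (φ k)).2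
  rw [hb _ ((equivShrink κ).symm (φ k)).2] at h1
  simpa using h1

/-! ## The theorem -/

theorem gs (h1 : V1Statement.{u}) (hA : VAStatement.{u}) : GSStatement.{u} := by
  obtain ⟨hsub, -, -, hle, -, -, hfunc, -, hstd', hsucc'⟩ := h1
  intro κ hstd hgmp I B K hK R hR
  obtain ⟨c, hreg, hκ, -⟩ := (hstd' κ).1 hstd
  have hc : ℵ₀ ≤ c := hreg.aleph0_le
  have hcard : κ.card = c := by rw [hκ, Ordinal.card_toZFSet, card_ord]
  rw [hcard] at hK hR ⊢
  obtain ⟨μ, hμ, hN⟩ := hA κ hstd hgmp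
  have hμ' : μ = (Order.succ c).ord.toZFSet := by
    rw [hκ] at hμ
    exact (hsucc' μ c hc).1 hμ
  have hμc : μ.card = Order.succ c := by rw [hμ', Ordinal.card_toZFSet, card_ord]
  obtain ⟨code, hcode⟩ := exists_code (Om I B K)
  obtain ⟨H, hNH, htr, hdown, hH⟩ := hN {W0 code, PW code κ}
  obtain ⟨M, hMH, hcl, hgs⟩ := hH (RR code κ R (Order.succ c)) (by
    rw [hcard]
    exact card_RR κ R (hc.trans (Order.le_succ c)) hR)
  have G : Good code κ c R H M :=
    { inj := hcode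
      trans := htr
      down := hdown
      hW := htr _ hNH (by simp)
      hP := htr _ hNH (by simp)
      hMH := hMH
      hcl := hcl }
  rw [V_isGuess] at hgs
  obtain ⟨-, ⟨hMμ, -⟩, hfun, hg⟩ := hgs
  have hfun' : ∀ ξ s, ξ ∈ κ → ZFSet.IsFunc ξ M s → s ∈ M := fun ξ s h h' =>
    hfun ξ s ⟨h, (hfunc s ξ M).2 h'⟩
  have hg' : ∀ x d, x ∈ M → d ⊆ x →
      (∀ z, z ∈ M → z ⊆ M → z.card ≤ c → ∃ t, t ∈ M ∧ ∀ y, y ∈ t ↔ y ∈ d ∧ y ∈ z) →
      ∃ e, e ∈ M ∧ ∀ y, y ∈ M → (y ∈ d ↔ y ∈ e) := by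
    intro x d hx hd h
    refine (V_guessed M d).1 (hg x d ⟨hx, (hsub d x).2 hd, (V_approx κ M d).2 ?_⟩)
    rintro z ⟨hz, hz', hz''⟩
    exact h z hz ((hsub z M).1 hz') (by rw [← hcard]; exact (hle z κ).1 hz'')
  refine ⟨{ω | code ω ∈ M}, ⟨?_, ?_, ?_, ?_⟩, G.rclosed⟩
  · -- size
    have h2 : M.card ≤ Order.succ c := by rw [← hμc]; exact (hle M μ).1 hMμ
    refine le_trans ?_ h2
    exact mk_le_card (f := fun ω : {ω | code ω ∈ M} => code ω.1)
      (hcode.comp Subtype.val_injective) fun ω => ω.2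
  · -- guess
    intro D hD
    obtain ⟨e, he, he'⟩ := hg' (lit code (Om.idx '' Set.univ)) (lit code (Om.idx '' D)) G.litU_mem
      (by
        intro y hy
        obtain ⟨ω, ⟨i, -, rfl⟩, rfl⟩ := mem_lit.1 hy
        exact mem_lit.2 ⟨_, ⟨i, trivial, rfl⟩, rfl⟩)
      (by
        intro z hz _ hzc
        have h2 : #(preI code z) ≤ c := by
          refine le_trans ?_ hzc
          refine mk_le_card (f := fun i : preI code z => code (.idx i.1)) ?_ fun i => i.2
          intro i j hij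
          have := hcode hij
          injection this with this
          exact Subtype.ext this
        have h3 := G.r3 (hD (preI code z) h2 (G.r1 hz))
        refine ⟨_, h3, fun y => ?_⟩
        constructor
        · intro hy
          obtain ⟨ω, ⟨i, ⟨hi, hi'⟩, rfl⟩, rfl⟩ := mem_lit.1 hy
          exact ⟨mem_lit.2 ⟨_, ⟨i, hi, rfl⟩, rfl⟩, hi'⟩
        · rintro ⟨hy, hyz⟩
          obtain ⟨ω, ⟨i, hi, rfl⟩, rfl⟩ := mem_lit.1 hy
          exact mem_lit.2 ⟨_, ⟨i, ⟨hi, hyz⟩, rfl⟩, rfl⟩)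
    refine ⟨preI code e, G.r1 he, fun i hi => ?_⟩
    have h2 := he' (code (.idx i)) hi
    rw [code_mem_lit hcode] at h2
    rw [preI, Set.mem_ofPred_eq, ← h2]
    constructor
    · intro h; exact ⟨i, h, rfl⟩
    · rintro ⟨j, hj, hij⟩
      injection hij with hij
      rwa [← hij]
  · -- cov1
    intro a ha
    obtain ⟨z, hz, hzc, hza⟩ := coverK G hc hκ hK hfun' hg' (fun k => Om.idx (a k)) ha
    refine ⟨preI code z, ?_, G.r1 hz, hza⟩
    refine le_trans ?_ hzc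
    refine mk_le_card (f := fun i : preI code z => code (.idx i.1)) ?_ fun i => i.2
    intro i j hij
    have := hcode hij
    injection this with this
    exact Subtype.ext this
  · -- cov2
    intro a ha
    obtain ⟨z, hz, hzc, hza⟩ := coverK G hc hκ hK hfun' hg' (fun k => Om.sub (a k)) ha
    refine ⟨preS code z, ?_, G.r2 hz, hza⟩
    refine le_trans ?_ hzc
    refine mk_le_card (f := fun i : preS code z => code (.sub i.1)) ?_ fun i => i.2
    intro i j hij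
    have := hcode hij
    injection this with this
    exact Subtype.ext this

end Pool.Agent.Lib.MP_100a6c_lc.H62
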